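import Pool.Agent.Q62.DN.JumpPub
import Pool.Agent.W12.TQ.Iter
import Pool.Agent.W347.TQ.Ode
import Pool.Agent.W52.TQ.Univ
import Pool.Agent.W775.TQ.Dtp
import Pool.Agent.W503.TQ.Est1
import Pool.Agent.W790.TQ.Est2
import Pool.Agent.W52.TQ.Loc
import Pool.Agent.W503.TQ.Uni

/-!
Singularities of the Navier-Stokes equations in a bounded domain at which energy is lost.

Let `u` be a Leray-Hopf solution, `τ` its first singular time. As `t` increases to `τ` the velocity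
converges weakly in `L²` to a field `U`, and `‖u(t) - U‖²` converges to a number `θ ≥ 0`, so that
`‖u(t)‖²` converges to `‖U‖² + θ`: the energy `θ / 2` is lost at the time `τ`. If `θ > 0`, then the
singularity is of a very restricted kind. With an absolute constant `c > 0` the dissipation on the last
interval of length `h` is at least `(c θ³ h)^{1/5}` for *every* small `h`; the enstrophy is large at
*almost every* time near `τ`, in the sense that `‖∇u(t)‖ ∫_t^τ ‖∇u‖^{3/2} ≥ c θ^{3/4}`; and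
`∫_s^t ‖∇u‖^{5/2}` grows at least like `c θ^{3/4} log (1 / (τ - t))`. The constants do not depend on the
domain, on the viscosity and on the force.
-/

set_option autoImplicit false

open MeasureTheory Set Filter Topology
open scoped InnerProductSpace ENNReal ContDiff

namespace Pool.Agent.Results.MP_fd8964_an.EnergyJump

open H772R2.NS.Pub Pool.Agent.W795.TQ

/-- There is an absolute constant `c > 0` with the following property. Let `u` be a Leray-Hopf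
solution on `[0,T]` with admissible data in a bounded open set `Ω`, `G = ∇u`. Then either `u` is a
strong solution on `[0,T]`, or there are a first singular time `τ ∈ (0,T]` (strong on `[0,t]` for
all `t < τ`, not strong on `[0,τ]`), a field `U` in `L²` and a
number `θ ≥ 0` so that `u(t)` converges weakly to `U` and `‖u(t) - U‖²` converges to `θ` as `t`
increases to `τ`; and if `θ > 0`, then
(1) `∫_{τ-h}^τ ‖∇u‖² ≥ (c θ³ h)^{1/5}` for all sufficiently small `h > 0`,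
(2) `‖∇u(t)‖ ∫_t^τ ‖∇u‖^{3/2} ≥ c θ^{3/4}` for almost every `t` near `τ`,
(3) for every `s < τ` there is a number `M` so that
`∫_s^t ‖∇u‖^{5/2} ≥ c θ^{3/4} log (1 / (τ - t)) - M` for all `t ∈ (s,τ)`. -/
theorem result : ∃ c : ℝ, 0 < c ∧
    ∀ (Ω : Set R3), IsOpen Ω → Bornology.IsBounded Ω → ∀ (ν T : ℝ), 0 < ν → 0 < T →
    ∀ (F F' : ℝ → L2 Ω Mat), IsH1 T F F' →
    ∀ (u : ℝ → L2 Ω R3) (G : ℝ → L2 Ω Mat), IsLerayHopf Ω ν T F u G →
    ∀ z0 : L2 Ω Mat, (u 0, z0) ∈ H1graph Ω →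
    (∃ g : L2 Ω R3, ∀ φ, IsTest Ω φ → rhs ν (u 0) z0 (F 0) φ = ∫ x in Ω, ⟪g.fn x, φ x⟫_ℝ) →
    (∃ u' G1 G', IsStrong Ω ν T F u u' G1 G') ∨
    ∃ τ ∈ Ioc 0 T, (∀ t ∈ Ioo 0 τ, ∃ u' G1 G', IsStrong Ω ν t F u u' G1 G') ∧
      (¬ ∃ u' G1 G', IsStrong Ω ν τ F u u' G1 G') ∧
      ∃ (U : L2 Ω R3) (θ : ℝ), 0 ≤ θ ∧
        (∀ w : L2 Ω R3, Tendsto (fun t => ⟪u t, w⟫_ℝ) (𝓝[<] τ) (𝓝 ⟪U, w⟫_ℝ)) ∧
        Tendsto (fun t => ‖u t - U‖ ^ 2) (𝓝[<] τ) (𝓝 θ) ∧
        (0 < θ →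
          (∃ h0 : ℝ, 0 < h0 ∧ h0 ≤ τ ∧ ∀ h : ℝ, 0 < h → h < h0 →
            c * θ ^ 3 * h ≤ (∫ t in (τ - h)..τ, ‖G t‖ ^ 2) ^ 5) ∧
          (∃ t1 ∈ Ico 0 τ, ∀ᵐ t ∂(volume.restrict (Ioo t1 τ)),
            c * θ ^ (3 / 4 : ℝ) ≤ ‖G t‖ * ∫ r in t..τ, ‖G r‖ ^ (3 / 2 : ℝ)) ∧
          ∀ s ∈ Ico 0 τ, ∃ M : ℝ, ∀ t ∈ Ioo s τ,
            c * θ ^ (3 / 4 : ℝ) * Real.log (1 / (τ - t)) - M
              ≤ ∫ r in s..t, ‖G r‖ ^ (5 / 2 : ℝ)) := by
  obtain ⟨c, hc, H⟩ := Pool.Agent.Q62.DN.jump_mid Pool.Agent.W12.TQ.proof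
    Pool.Agent.W347.TQ.proof_ode
    Pool.Agent.W775.TQ.proof_dtp Pool.Agent.W503.TQ.proof_est1 Pool.Agent.W790.TQ.proof_est2
    Pool.Agent.W52.TQ.proof_loc Pool.Agent.W503.TQ.proof_uni Pool.Agent.W52.TQ.proof_univ
  refine ⟨c, hc, ?_⟩
  intro Ω hΩ hb ν T hν hT F F' hF u G L z0 h0 hg
  obtain ⟨g, hg'⟩ := hg
  rcases H Ω hΩ hb ν T hν hT F F' hF.memLp hF.prim u G L.meas
    (by
      filter_upwards [L.grad] with t ht
      exact mem_pub.mpr ht) L.gradL2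
    (fun φ hφ t ht => L.eqn φ ((isTest_iff φ).mpr hφ) t ht) L.energy z0 (mem_pub.mpr h0)
    ⟨g, fun φ hφ => hg' φ ((isTest_iff φ).mpr hφ)⟩ with h1 | ⟨τ, hτ, k1, ks, k2⟩
  · exact Or.inl h1
  refine Or.inr ⟨τ, hτ, k1, ?_, k2⟩
  rintro ⟨u', G1, G', hS⟩
  obtain ⟨M, hM⟩ := hS.bdd
  have hlip : ∀ t ∈ Icc 0 τ, ‖u t - u τ‖ ≤ max M 0 * (τ - t) := by
    intro t ht
    rw [norm_sub_rev, hS.hu.prim t τ ht.1 ht.2 le_rfl]
    have h3 : ∀ᵐ s ∂(volume.restrict (Ioc t τ)), ‖u' s‖ ≤ max M 0 := by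
      have h4 := ae_mono (Measure.restrict_mono (Ioc_subset_Ioc_left ht.1) le_rfl) hM
      filter_upwards [h4] with s hs
      exact hs.trans (le_max_left _ _)
    have h5 := intervalIntegral.norm_integral_le_of_norm_le_const_ae (a := t) (b := τ) (f := u')
      (C := max M 0) (by
        rw [uIoc_of_le ht.2]
        exact (ae_restrict_iff' measurableSet_Ioc).mp h3)
    rwa [abs_of_nonneg (by linarith [ht.2])] at h5
  exact ks.not_lip hτ.1 hlip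

end Pool.Agent.Results.MP_fd8964_an.EnergyJump
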