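import Pool.Agent.Q85.VL.All

/-!
Every angle between vorticities occurs at a singular point of the Navier-Stokes equations in a
domain.

`V` is `ℝ³` with the maximum norm, `vort v` is the curl of `v`, `om v` its Euclidean length. The
class `DSl` consists of the smooth solutions in `(0, T) × Ω`, `Ω` any open set, with finite energy,
finite dissipation and integrable pressure; nothing is assumed at the boundary of `Ω`. A point `a`
is singular at the time `T` (`Sing T u a`) if `u` is unbounded in every neighbourhood of `(T, a)`.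

At a singular point `a` every angle between 0 and 90 degrees occurs, up to an arbitrarily small
error, at times arbitrarily close to `T`, between a large vorticity and a nonzero vorticity in an
arbitrarily small ball around `a`. So there is no singularity at `a` if, for the times close to `T`,
the angles between the large and the nonzero vorticities near `a` avoid one interval. The angle is
the angle between the lines (no orientation).

Here `large` means `|ω(t, y)| > m(t, y)` where the threshold `m` (`Thr`) is any function in the Kato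
class, uniformly in the time: besides the constants the functions `M / (ρ (1 + |log ρ|))²` of nearly
critical size, `ρ = ‖y - a‖ + √(T - t)` being the parabolic distance from `(T, a)`.
-/

open MeasureTheory Set
open H459R3.NS Pool.Agent.W268.NS Pool.Agent.Q67.VD
open Pool.Agent.Q85.CL (Sing DSl)
open Pool.Agent.Q85.VL (Thr)

set_option autoImplicit false

namespace Pool.Agent.Results.MP_fd8964_an.EveryAngle

/-- Let `(u, p)` be a smooth solution of the Navier-Stokes equations with viscosity `ν`, without
force, in `(0, T) × Ω`, with finite energy, finite dissipation and integrable pressure. Let `a ∈ Ω`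
be a singular point at the time `T` and let `c ∈ [0, 1]`, `ε > 0`, `T₀ ∈ [0, T)`, `R > 0` and the
threshold `m` be arbitrary. Then there are a time `t ∈ (T₀, T)` and points `x, y` with
`‖x - a‖, ‖y - a‖ ≤ R`, `|ω(t, x)| > m(t, x)`, `ω(t, y) ≠ 0`, such that `|ω(t, x) · ω(t, y)|`
differs from `c |ω(t, x)| |ω(t, y)|` by less than `ε |ω(t, x)| |ω(t, y)|`.

For `M ≥ 0` the function `M / (ρ (1 + |log ρ|))²`, `ρ = ‖y - a‖ + √(T - t)`, is a threshold. -/
theorem result (ν T E : ℝ) (Ω : Set V) (u : ℝ → V → V) (p : ℝ → V → ℝ) (hν : 0 < ν)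
    (h : DSl ν T E Ω u p) (a : V) (ha : a ∈ Ω) (hs : Sing T u a) (T₀ R : ℝ) (hT0 : 0 ≤ T₀)
    (hT₀ : T₀ < T) (hR : 0 < R) :
    (∀ (c ε : ℝ) (m : ℝ → V → ℝ), 0 ≤ c → c ≤ 1 → 0 < ε → Thr T₀ T a R m →
      ∃ t ∈ Ioo T₀ T, ∃ x y : V, ‖x - a‖ ≤ R ∧ ‖y - a‖ ≤ R ∧ m t x < om (u t) x ∧
        0 < om (u t) y ∧
        |(|vort (u t) x ⬝ᵥ vort (u t) y| - c * (om (u t) x * om (u t) y))|
          < ε * (om (u t) x * om (u t) y)) ∧
    ∀ M : ℝ, 0 ≤ M → Thr T₀ T a R (fun t y =>
      M / ((‖y - a‖ + √(T - t)) * (1 + |Real.log (‖y - a‖ + √(T - t))|)) ^ 2) :=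
  ⟨fun _ _ _ hc0 hc1 hε hm => Q85.VL.sing_angK Q85.VL.stmLyap Q225.CL.stmGdL hν h ha hs hT0 hT₀
    hc0 hc1 hε hR hm, fun M hM => Q224.VL.stmEx T₀ T a R M hM⟩

end Pool.Agent.Results.MP_fd8964_an.EveryAngle
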