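import Pool.Agent.Q62.DN.NudPub
import Pool.Agent.W12.TQ.Iter
import Pool.Agent.W347.TQ.Ode
import Pool.Agent.W52.TQ.Univ
import Pool.Agent.W775.TQ.Dtp
import Pool.Agent.W503.TQ.Est1
import Pool.Agent.W790.TQ.Est2
import Pool.Agent.W52.TQ.Loc
import Pool.Agent.W503.TQ.Uni
import Pool.Agent.W271.ES.Pt
import Pool.Agent.W918.ES.Gr
import Pool.Agent.W91.ES.Conc

/-!
Data assimilation by nudging sees a singularity of the Navier-Stokes equations in a bounded domain.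

The algorithm of Azouani, Olson and Titi computes, from the observations `R u(t)` of a solution `u`
with the resolution `h` (`‖φ - R φ‖ ≤ h ‖∇φ‖`; low modes, volume averages, ...), the solution `v` of the
equations with the additional term `-μ R (v - u)` and an arbitrary initial value, where
`μ h² ≤ ν`. If `u` is a Leray-Hopf solution with a first singular time `τ`, then the nudged
solutions `v` have `∫_s^τ ‖∇v‖₂⁴ ≥ c ν³ (μ τ - M)`, for all the observation operators, all `μ` and all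
initial values in a ball of `L²`; `c` is an absolute constant and `M` depends on `u`, `s` and the
ball. For `μ = ν / h²` the rate is `h⁻²`. So a solution is regular up to `τ` if along one
sequence of observation operators and nudging parameters `μ → ∞` the integrals
`∫_s^τ ‖∇v‖₂⁴` of the computed solutions stay bounded, or are less than `c ν³ μ τ` by more than a
constant.
-/

set_option autoImplicit false

open MeasureTheory Set
open scoped InnerProductSpace ENNReal ContDiff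

namespace Pool.Agent.Results.MP_fd8964_an.Nudging

open H772R2.NS.Pub Pool.Agent.W795.TQ
open Pool.Agent.W795.ES (stretch)

/-- `v` is a weak solution on `[0,T]` of the nudged equations with the observed solution `u`, the
observation operator `R`, the nudging parameter `μ`, and the force `⟨f(t), φ⟩ = (F(t), ∇φ)`; `D = ∇v`:
* `v(t) ∈ V` with gradient `D(t)` for almost every `t`, and `∇v ∈ L²(0,T; L²)`;
* the equations `∂ₜv + (v·∇)v - νΔv + ∇π = f - μ R (v - u)` hold tested with the elements of `V`,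
  integrated in time from `0` to `t`;
* the energy inequality holds from `a` to `t`, for `a = 0` and for almost every `a`, and for
  all `t ≥ a`. -/
structure IsNudged (Ω : Set R3) (ν T μ : ℝ) (F : ℝ → L2 Ω Mat) (R : L2 Ω R3 →L[ℝ] L2 Ω R3)
    (u v : ℝ → L2 Ω R3) (D : ℝ → L2 Ω Mat) : Prop where
  meas : AEStronglyMeasurable v (volume.restrict (Ioc 0 T))
  mem : ∀ᵐ t ∂(volume.restrict (Ioc 0 T)), (v t, D t) ∈ H1graph Ω
  gradL2 : MemLp D 2 (volume.restrict (Ioc 0 T))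
  eqn : ∀ p ∈ H1graph Ω, ∀ t ∈ Icc 0 T, ⟪v t - v 0, p.1⟫_ℝ
    = ∫ s in (0 : ℝ)..t, (⟪F s, p.2⟫_ℝ - ν * ⟪D s, p.2⟫_ℝ + stretch p.2 (v s)
        - μ * ⟪R (v s - u s), p.1⟫_ℝ)
  energy0 : ∀ t ∈ Icc 0 T, ‖v t‖ ^ 2 / 2 + ν * (∫ s in (0 : ℝ)..t, ‖D s‖ ^ 2)
    ≤ ‖v 0‖ ^ 2 / 2 + ∫ s in (0 : ℝ)..t, (⟪F s, D s⟫_ℝ - μ * ⟪R (v s - u s), v s⟫_ℝ)
  energy : ∀ᵐ a ∂(volume.restrict (Ioc 0 T)), ∀ t ∈ Icc a T,
    ‖v t‖ ^ 2 / 2 + ν * (∫ s in a..t, ‖D s‖ ^ 2)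
      ≤ ‖v a‖ ^ 2 / 2 + ∫ s in a..t, (⟪F s, D s⟫_ℝ - μ * ⟪R (v s - u s), v s⟫_ℝ)

/-- There is an absolute constant `c > 0` with the following property. Let `u` be a Leray-Hopf
solution on `[0,T]` with admissible data in a bounded open set `Ω`, `ν` the viscosity, `F` the force.
Then either `u` is a strong solution on `[0,T]`, or there is a first singular time `τ ∈ (0,T]` with
the following property. For `0 ≤ s < τ` and a number `K₀` there is a number `M` such that, whenever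
`h ≥ 0`, `μ > 0`, `μ h² ≤ ν`, `R` is a bounded operator in `L²(Ω)` with `‖φ - R φ‖ ≤ h ‖∇φ‖` for all
`φ ∈ V`, `v` is a nudged solution on `[0,τ]` with `‖v(0)‖ ≤ K₀`, and `β` is integrable on `(s,τ)` with
`‖∇v(t)‖⁴ ≤ β(t)` for almost every `t`, one has `∫_s^τ β ≥ c ν³ (μ τ - M)`. -/
theorem result : ∃ c : ℝ, 0 < c ∧
    ∀ (Ω : Set R3), IsOpen Ω → Bornology.IsBounded Ω → ∀ (ν T : ℝ), 0 < ν → 0 < T →
    ∀ (F F' : ℝ → L2 Ω Mat), IsH1 T F F' →
    ∀ (u : ℝ → L2 Ω R3) (G : ℝ → L2 Ω Mat), IsLerayHopf Ω ν T F u G →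
    ∀ z0 : L2 Ω Mat, (u 0, z0) ∈ H1graph Ω →
    (∃ g : L2 Ω R3, ∀ φ, IsTest Ω φ → rhs ν (u 0) z0 (F 0) φ = ∫ x in Ω, ⟪g.fn x, φ x⟫_ℝ) →
    (∃ u' G1 G', IsStrong Ω ν T F u u' G1 G') ∨
    ∃ τ ∈ Ioc 0 T, (∀ t ∈ Ioo 0 τ, ∃ u' G1 G', IsStrong Ω ν t F u u' G1 G') ∧
      ∀ s ∈ Ico 0 τ, ∀ K₀ : ℝ, ∃ M : ℝ, ∀ μ h : ℝ, 0 ≤ h → 0 < μ → μ * h ^ 2 ≤ ν →
        ∀ R : L2 Ω R3 →L[ℝ] L2 Ω R3, (∀ p ∈ H1graph Ω, ‖p.1 - R p.1‖ ≤ h * ‖p.2‖) →
        ∀ (v : ℝ → L2 Ω R3) (D : ℝ → L2 Ω Mat), IsNudged Ω ν τ μ F R u v D → ‖v 0‖ ≤ K₀ →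
        ∀ β : ℝ → ℝ, IntegrableOn β (Ioo s τ) →
          (∀ᵐ t ∂(volume.restrict (Ioo s τ)), ‖D t‖ ^ 4 ≤ β t) →
          c * ν ^ 3 * (μ * τ - M) ≤ ∫ t in s..τ, β t := by
  obtain ⟨c, hc, H⟩ := Pool.Agent.Q62.DN.nud_mid Pool.Agent.W91.ES.proof
    (Pool.Agent.W918.ES.proof Pool.Agent.W271.ES.proof) Pool.Agent.W12.TQ.proof
    Pool.Agent.W347.TQ.proof_ode
    Pool.Agent.W775.TQ.proof_dtp Pool.Agent.W503.TQ.proof_est1 Pool.Agent.W790.TQ.proof_est2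
    Pool.Agent.W52.TQ.proof_loc Pool.Agent.W503.TQ.proof_uni Pool.Agent.W52.TQ.proof_univ
  refine ⟨c, hc, ?_⟩
  intro Ω hΩ hb ν T hν hT F F' hF u G L z0 h0 hg
  obtain ⟨g, hg'⟩ := hg
  rcases H Ω hΩ hb ν T hν hT F F' hF.memLp hF.prim u G L.meas
    (by
      filter_upwards [L.grad] with t ht
      exact mem_pub.mpr ht) L.gradL2
    (fun φ hφ t ht => L.eqn φ ((isTest_iff φ).mpr hφ) t ht) L.energy z0 (mem_pub.mpr h0)
    ⟨g, fun φ hφ => hg' φ ((isTest_iff φ).mpr hφ)⟩ with h1 | ⟨τ, hτ, h1, h2⟩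
  · exact Or.inl h1
  refine Or.inr ⟨τ, hτ, h1, fun s hs K₀ => ?_⟩
  obtain ⟨M, hM⟩ := h2 s hs K₀
  refine ⟨M, fun μ h hh hμ hμh R hR v D S hv0 β hβ hD => ?_⟩
  refine hM μ h R v D β hh hμ hμh (fun p hp => hR p (mem_pub.mp hp)) ?_ hv0 hβ hD
  exact Pool.Agent.Q62.DN.pub_nud hΩ S.meas
    (by
      filter_upwards [S.mem] with t ht
      exact mem_pub.mpr ht) S.gradL2
    (fun p hp t ht => S.eqn p (mem_pub.mp hp) t ht) S.energy0 S.energy

end Pool.Agent.Results.MP_fd8964_an.Nudging
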