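import Pool.Agent.Q62.DN.OnePub
import Pool.Agent.W12.TQ.Iter
import Pool.Agent.W347.TQ.Ode
import Pool.Agent.W52.TQ.Univ
import Pool.Agent.W775.TQ.Dtp
import Pool.Agent.W503.TQ.Est1
import Pool.Agent.W790.TQ.Est2
import Pool.Agent.W52.TQ.Loc
import Pool.Agent.W503.TQ.Uni
import Pool.Agent.W271.ES.Pt
import Pool.Agent.W918.ES.Gr
import Pool.Agent.W91.ES.Conc

/-!
A singularity of the Navier-Stokes equations in a bounded domain is visible at every single scale.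

Let `u` be a Leray-Hopf solution and `a` the velocity resolved at the scale `δ`: for example
`a = (1 + δ² A)⁻¹ u` (`A` the Stokes operator; Helmholtz filter), `a = e^{-δ² A} u`, the projection of
`u` onto the eigenfunctions of `A` with eigenvalue less than `1 / δ²`, or the Ritz projection of `u`
onto a space of finite elements of size `δ`. Up to a first singular time `τ` the growth rates of the
perturbations of the resolved flow must have an integral of at least `log (1 / δ) - M`, for each `δ`;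
in particular `∫_s^τ ‖∇a‖₂⁴ ≥ c ν³ (log (1 / δ) - M)` with an absolute constant `c`, whereas this
integral is bounded, uniformly in `δ`, if `u` is a strong solution up to `τ`. The scale may also depend
on time: if `δ(t)` is chosen so that `log (1 / δ(t)) ≥ M + c⁻¹ ν⁻³ ∫_s^t ‖∇a‖₂⁴`, then this integral
must diverge at `τ`.
-/

set_option autoImplicit false

open MeasureTheory Set
open scoped InnerProductSpace ENNReal ContDiff

namespace Pool.Agent.Results.MP_fd8964_an.OneScale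

open H772R2.NS.Pub Pool.Agent.W795.TQ
open Pool.Agent.W795.ES (stretch)

/-- The field `a ∈ V` with gradient `A` is the velocity `u` (with gradient `G`) resolved at the scale
`δ > 0`, with the constant `k`: `‖u - a‖² + δ² ‖∇(u - a)‖² ≤ k δ² (∇u, ∇(u - a))`. -/
structure Resolved (Ω : Set R3) (k : ℝ) (u : L2 Ω R3) (G : L2 Ω Mat) (δ : ℝ) (a : L2 Ω R3)
    (A : L2 Ω Mat) : Prop where
  pos : 0 < δ
  mem : (a, A) ∈ H1graph Ω
  le : ‖u - a‖ ^ 2 + δ ^ 2 * ‖G - A‖ ^ 2 ≤ k * δ ^ 2 * ⟪G, G - A⟫_ℝ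

/-- There is an absolute constant `c > 0` with the following property. Let `u` be a Leray-Hopf
solution on `[0,T]` with admissible data in a bounded open set `Ω`, `G = ∇u`. Then either `u` is a
strong solution on `[0,T]`, or there is a first singular time `τ ∈ (0,T]` with the following
properties.
(1) Let `ψ₁, …, ψₙ` be divergence free test fields, `ε > 0`, `k ≥ 0`, `0 ≤ s < τ`. There is a number
`M` with the following property. Let `a(t)`, `A(t) = ∇a(t)` be the velocity resolved at the scale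
`δ(t)`, with the constant `k`, and let `Λ ≥ 0` be integrable on `(s,τ)` so that, for almost every
`t ∈ (s,τ)`, `-∫ v·(v·∇)a(t) ≤ (1 - ε) ν ‖∇v‖² + Λ(t) ‖v‖²` for all `v ∈ V` orthogonal to `ψ₁, …, ψₙ`.
Then it is not true that `log (1 / δ(t)) ≥ M + ∫_s^t Λ` for almost every `t ∈ (s,τ)`.
(2) Let `k ≥ 0`, `0 ≤ s < τ`. There is `M` such that, whenever `a(t)`, `A(t) = ∇a(t)` is the velocity
resolved at one scale `δ`, with the constant `k`, `β` is integrable on `(s,τ)` and `‖∇a(t)‖⁴ ≤ β(t)` for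
almost every `t ∈ (s,τ)`, one has `∫_s^τ β ≥ c ν³ (log (1 / δ) - M)`. -/
theorem result : ∃ c : ℝ, 0 < c ∧
    ∀ (Ω : Set R3), IsOpen Ω → Bornology.IsBounded Ω → ∀ (ν T : ℝ), 0 < ν → 0 < T →
    ∀ (F F' : ℝ → L2 Ω Mat), IsH1 T F F' →
    ∀ (u : ℝ → L2 Ω R3) (G : ℝ → L2 Ω Mat), IsLerayHopf Ω ν T F u G →
    ∀ z0 : L2 Ω Mat, (u 0, z0) ∈ H1graph Ω →
    (∃ g : L2 Ω R3, ∀ φ, IsTest Ω φ → rhs ν (u 0) z0 (F 0) φ = ∫ x in Ω, ⟪g.fn x, φ x⟫_ℝ) →
    (∃ u' G1 G', IsStrong Ω ν T F u u' G1 G') ∨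
    ∃ τ ∈ Ioc 0 T, (∀ t ∈ Ioo 0 τ, ∃ u' G1 G', IsStrong Ω ν t F u u' G1 G') ∧
      (∀ (n : ℕ) (ψ : Fin n → R3 → R3), (∀ j, IsTest Ω (ψ j)) → ∀ ε k : ℝ, 0 < ε → 0 ≤ k →
        ∀ s ∈ Ico 0 τ, ∃ M : ℝ, ∀ (δ Λ : ℝ → ℝ) (a : ℝ → L2 Ω R3) (A : ℝ → L2 Ω Mat),
          (∀ᵐ t ∂(volume.restrict (Ioo s τ)), Resolved Ω k (u t) (G t) (δ t) (a t) (A t)) →
          (∀ t, 0 ≤ Λ t) → IntegrableOn Λ (Ioo s τ) →
          (∀ᵐ t ∂(volume.restrict (Ioo s τ)), ∀ p ∈ H1graph Ω,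
            (∀ j, (∫ x in Ω, ⟪p.1.fn x, ψ j x⟫_ℝ) = 0) →
            -stretch (A t) p.1 ≤ (1 - ε) * ν * ‖p.2‖ ^ 2 + Λ t * ‖p.1‖ ^ 2) →
          ¬ ∀ᵐ t ∂(volume.restrict (Ioo s τ)), M + ∫ r in s..t, Λ r ≤ Real.log (1 / δ t)) ∧
      ∀ k : ℝ, 0 ≤ k → ∀ s ∈ Ico 0 τ, ∃ M : ℝ, ∀ δ : ℝ, 0 < δ →
        ∀ (a : ℝ → L2 Ω R3) (A : ℝ → L2 Ω Mat) (β : ℝ → ℝ),
          (∀ᵐ t ∂(volume.restrict (Ioo s τ)), Resolved Ω k (u t) (G t) δ (a t) (A t)) →
          IntegrableOn β (Ioo s τ) → (∀ᵐ t ∂(volume.restrict (Ioo s τ)), ‖A t‖ ^ 4 ≤ β t) →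
          c * ν ^ 3 * (Real.log (1 / δ) - M) ≤ ∫ t in s..τ, β t := by
  obtain ⟨c, hc, H⟩ := Pool.Agent.Q62.DN.one_mid Pool.Agent.W91.ES.proof
    (Pool.Agent.W918.ES.proof Pool.Agent.W271.ES.proof) Pool.Agent.W12.TQ.proof
    Pool.Agent.W347.TQ.proof_ode
    Pool.Agent.W775.TQ.proof_dtp Pool.Agent.W503.TQ.proof_est1 Pool.Agent.W790.TQ.proof_est2
    Pool.Agent.W52.TQ.proof_loc Pool.Agent.W503.TQ.proof_uni Pool.Agent.W52.TQ.proof_univ
  refine ⟨4 / (27 * c ^ 4), by positivity, ?_⟩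
  intro Ω hΩ hb ν T hν hT F F' hF u G L z0 h0 hg
  obtain ⟨g, hg'⟩ := hg
  rcases H Ω hΩ hb ν T hν hT F F' hF.memLp hF.prim u G L.meas
    (by
      filter_upwards [L.grad] with t ht
      exact mem_pub.mpr ht) L.gradL2
    (fun φ hφ t ht => L.eqn φ ((isTest_iff φ).mpr hφ) t ht) L.energy z0 (mem_pub.mpr h0)
    ⟨g, fun φ hφ => hg' φ ((isTest_iff φ).mpr hφ)⟩ with h1 | ⟨τ, hτ, h1, h2, h3⟩
  · exact Or.inl h1
  refine Or.inr ⟨τ, hτ, h1, ?_, ?_⟩
  · intro n ψ hψ ε k hε hk s hs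
    obtain ⟨M, hM⟩ := h2 n ψ (fun j => (isTest_iff (ψ j)).mp (hψ j)) ε k hε hk s hs
    refine ⟨M, fun δ Λ a A hres hΛ0 hΛi hform => hM δ Λ a A ?_ hΛ0 hΛi ?_⟩
    · filter_upwards [hres] with t ht
      exact ⟨ht.pos, mem_pub.mpr ht.mem, ht.le⟩
    · filter_upwards [hform] with t ht
      intro p hp hpq
      exact ht p (mem_pub.mp hp) hpq
  · intro k hk s hs
    obtain ⟨M, hM⟩ := h3 k hk s hs
    refine ⟨M, fun δ hδ a A β hres hβ hb => hM δ hδ a A β ?_ hβ hb⟩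
    filter_upwards [hres] with t ht
    exact ⟨ht.pos, mem_pub.mpr ht.mem, ht.le⟩

end Pool.Agent.Results.MP_fd8964_an.OneScale
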